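import Pool.Agent.helper73.DP.SE3
import Pool.Agent.helper64.TP.SpecE
import Pool.Agent.helper64.TP.Basic
/-!
# The separation step (module SE3 of project dp, brick wall version)
-/

namespace TP

open DP

open MeasureTheory

/-! ## Locality -/

theorem SE3_Mrk_loc {s : Bool} {x : V} {r : ℕ} {D : Dat} (h : D.ok s x r) (j n a A : ℕ)
    (y : ℕ → V) (hj : 0 < j) : Loc (Ev fun c => Mrk c j s x n D y a A) Set.univ := by
  have hfin : ((HS s x n \ D.N true) ∪ (HS s x n \ D.N false)).Finite :=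
    (SE3_finite h n true).union (SE3_finite h n false)
  refine Loc.mono (Loc.ev (A := (HS s x n \ D.N true) ∪ (HS s x n \ D.N false)) hfin ?_)
    (Set.subset_univ _)
  intro c c' hcc
  constructor
  · rintro ⟨h1, h2⟩
    exact ⟨SE3_MrkC_congr hj (fun _ _ => rfl) (fun v hv => hcc v (Or.inl hv)) h1,
      SE3_MrkC_congr hj (fun _ _ => rfl) (fun v hv => hcc v (Or.inr hv)) h2⟩
  · rintro ⟨h1, h2⟩
    exact ⟨SE3_MrkC_congr hj (fun _ _ => rfl) (fun v hv => (hcc v (Or.inl hv)).symm) h1,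
      SE3_MrkC_congr hj (fun _ _ => rfl) (fun v hv => (hcc v (Or.inr hv)).symm) h2⟩

/-! ## The net -/

/-! ## Choice of the constants -/

/-! ## The inequality for abstract events -/

theorem SE3_abstract (hBmono : Bmono_stmt) (hBsub : Bsub_stmt) (hBunion : Bunion_stmt)
    (hBcs : Bcs_stmt) (hBindep : Bindep_stmt) (hBmarg : Bmarg_stmt) (hBsymm : Bsymm_stmt)
    (ρ : V → ℝ) (hρ : Profile ρ) (F Y B : Set (V → Bool)) (N : ℕ) (M : Fin N → Set (V → Bool))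
    (A A' : Set V) (q δ : ℝ) (hFY : F ⊆ Y) (hF : F ⊆ B ∪ ⋃ i, M i)
    (hq : 0 ≤ q) (hM : ∀ i, Q ρ (M i) (M i) ≤ q) (hML : ∀ i, Loc (M i) Set.univ)
    (hAA : BDis A A') (hY : Loc Y A) (hB : Loc B A') (hδ : Pr B ≤ δ) :
    Q ρ F F ≤ (N : ℝ) * N * q + 2 * δ * Q ρ Y Y := by
  have hQ0 : ∀ G G' : Set (V → Bool), 0 ≤ Q ρ G G' := fun G G' => measureReal_nonneg
  have hFsub : F ⊆ (F ∩ B) ∪ (F ∩ ⋃ i, M i) := by
    intro b hb
    rcases hF hb with h | h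
    · exact Or.inl ⟨hb, h⟩
    · exact Or.inr ⟨hb, h⟩
  have h1 : Q ρ F F ≤ Q ρ (F ∩ B) F + Q ρ (F ∩ ⋃ i, M i) F :=
    le_trans (hBmono ρ _ _ _ _ hFsub subset_rfl) (hBsub ρ _ _ _).1
  have h2 : Q ρ (F ∩ ⋃ i, M i) F ≤ Q ρ (F ∩ ⋃ i, M i) (F ∩ B) +
      Q ρ (F ∩ ⋃ i, M i) (F ∩ ⋃ i, M i) :=
    le_trans (hBmono ρ _ _ _ _ subset_rfl hFsub) (hBsub ρ _ _ _).2
  have h3 : Q ρ (F ∩ B) F ≤ Q ρ (Y ∩ B) (Y ∩ Set.univ) :=
    hBmono ρ _ _ _ _ (Set.inter_subset_inter_left _ hFY) (by simpa using hFY)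
  have h4 : Q ρ (F ∩ ⋃ i, M i) (F ∩ B) ≤ Q ρ (Y ∩ Set.univ) (Y ∩ B) :=
    hBmono ρ _ _ _ _ (fun b hb => ⟨hFY hb.1, trivial⟩) (Set.inter_subset_inter_left _ hFY)
  have h5 : Q ρ (F ∩ ⋃ i, M i) (F ∩ ⋃ i, M i) ≤ ∑ i, ∑ j, Q ρ (M i) (M j) :=
    le_trans (hBmono ρ _ _ _ _ Set.inter_subset_right Set.inter_subset_right)
      (hBunion ρ N N M M)
  have h6 : Q ρ (Y ∩ B) (Y ∩ Set.univ) = Q ρ Y Y * Pr B := by
    rw [hBindep ρ Y Y B Set.univ A A' hAA hY hY hB (Loc.univ _), hBmarg ρ B A' hB]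
  have h7 : Q ρ (Y ∩ Set.univ) (Y ∩ B) = Q ρ Y Y * Pr B := by
    rw [hBindep ρ Y Y Set.univ B A A' hAA hY hY (Loc.univ _) hB,
      hBsymm ρ Set.univ B A' (Loc.univ _) hB, hBmarg ρ B A' hB]
  have h8 : ∀ i j, Q ρ (M i) (M j) ≤ q := by
    intro i j
    have h := hBcs ρ (M i) (M j) Set.univ hρ (hML i) (hML j)
    have h' : Q ρ (M i) (M i) * Q ρ (M j) (M j) ≤ q * q :=
      mul_le_mul (hM i) (hM j) (hQ0 _ _) hq
    nlinarith [hQ0 (M i) (M j)]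
  have h9 : ∑ i : Fin N, ∑ j : Fin N, Q ρ (M i) (M j) ≤ (N : ℝ) * N * q := by
    calc ∑ i : Fin N, ∑ j : Fin N, Q ρ (M i) (M j) ≤ ∑ _i : Fin N, ∑ _j : Fin N, q :=
          Finset.sum_le_sum fun i _ => Finset.sum_le_sum fun j _ => h8 i j
      _ = (N : ℝ) * N * q := by
          simp only [Finset.sum_const, Finset.card_univ, Fintype.card_fin, nsmul_eq_mul]
          ring
  have h10 : Q ρ Y Y * Pr B ≤ Q ρ Y Y * δ := mul_le_mul_of_nonneg_left hδ (hQ0 _ _)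
  linarith

/-! ## The index set -/

/-! ## Powers of two -/

/-! ## The bad events -/

theorem SE3_bad (hBsub : Bsub_stmt) (hBmarg : Bmarg_stmt) (hDL : DL_stmt) (C a ε : ℝ) (ha : 0 < a)
    (hC : 0 < C)
    (hDB : ∀ (s : Bool) (x : V) (n r R : ℕ), Even (x.1 + x.2) →
      1 ≤ r → r ≤ R → R ≤ n →
        Pr (Ev fun c => Bad s c x n r R) ≤ C * ((n : ℝ) / R) * ((r : ℝ) / R) ^ a)
    {i d e h : ℕ} (hd : 7 ≤ d) (hde : d + 3 ≤ e) (heh : e + 4 ≤ h) (hhi : h ≤ i)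
    (h1 : C * 4 * (((1 : ℝ) / 2) ^ (d - 4)) ^ a ≤ ε)
    (h2 : C * 2 ^ (d - 1) * (((1 : ℝ) / 2) ^ (e - d)) ^ a ≤ ε) (s : Bool) (x : V)
    (hx : Even (x.1 + x.2)) :
    Pr ((Ev fun c => Bad s c x (2 ^ i) (2 ^ (i + 1 - d) + 4) (2 ^ (i - 2))) ∪
      Ev fun c => Bad s c x (2 ^ i) (2 ^ (i + 1 - e)) (2 ^ (i + 1 - d))) ≤ ε + ε := by
  obtain ⟨p1, p2, p3, p4, p5, p6, p7, p8, p9, p10, p11⟩ := SE3_pow hd hde heh hhi
  have hL1 := hDL s x (2 ^ i) (2 ^ (i + 1 - d) + 4) (2 ^ (i - 2)) (by omega)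
  have hL2 := hDL s x (2 ^ i) (2 ^ (i + 1 - e)) (2 ^ (i + 1 - d)) (by omega)
  set B₁ := Ev fun c => Bad s c x (2 ^ i) (2 ^ (i + 1 - d) + 4) (2 ^ (i - 2)) with hB₁
  set B₂ := Ev fun c => Bad s c x (2 ^ i) (2 ^ (i + 1 - e)) (2 ^ (i + 1 - d)) with hB₂
  have hU : Pr (B₁ ∪ B₂) ≤ Pr B₁ + Pr B₂ := by
    have h := (hBsub (fun _ => 0) B₁ B₂ Set.univ).1
    rw [hBmarg (fun _ => 0) B₁ _ hL1, hBmarg (fun _ => 0) B₂ _ hL2,
      hBmarg (fun _ => 0) (B₁ ∪ B₂) Set.univ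
        ((hL1.mono (Set.subset_univ _)).union (hL2.mono (Set.subset_univ _)) |>.mono
          (Set.subset_univ _))] at h
    exact h
  have hb1 := hDB s x (2 ^ i) (2 ^ (i + 1 - d) + 4) (2 ^ (i - 2)) hx (by omega) (by omega)
    (by omega)
  have hb2 := hDB s x (2 ^ i) (2 ^ (i + 1 - e)) (2 ^ (i + 1 - d)) hx (by omega) (by omega)
    (by omega)
  have e1 : ((2 ^ i : ℕ) : ℝ) / ((2 ^ (i - 2) : ℕ) : ℝ) = 4 := by
    rw [← p6]
    push_cast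
    field_simp
  have e2 : ((2 ^ i : ℕ) : ℝ) / ((2 ^ (i + 1 - d) : ℕ) : ℝ) = 2 ^ (d - 1) := by
    have h3 : 2 ^ i = 2 ^ (d - 1) * 2 ^ (i + 1 - d) := by
      rw [← pow_add]; congr 1; omega
    rw [h3]
    push_cast
    field_simp
  have e3 : ((2 ^ (i + 1 - e) : ℕ) : ℝ) / ((2 ^ (i + 1 - d) : ℕ) : ℝ) = (1 / 2) ^ (e - d) := by
    have h3 : 2 ^ (i + 1 - d) = 2 ^ (e - d) * 2 ^ (i + 1 - e) := by
      rw [← pow_add]; congr 1; omega
    rw [h3]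
    push_cast
    rw [one_div, inv_pow]
    field_simp
  have e4 : ((2 ^ (i + 1 - d) + 4 : ℕ) : ℝ) / ((2 ^ (i - 2) : ℕ) : ℝ) ≤ (1 / 2) ^ (d - 4) := by
    have h3 : 2 ^ (i - 2) = 2 ^ (d - 4) * (2 * 2 ^ (i + 1 - d)) := by
      rw [← pow_succ', ← pow_add]; congr 1; omega
    have h4 : ((2 ^ (i + 1 - d) + 4 : ℕ) : ℝ) ≤ 2 * ((2 ^ (i + 1 - d) : ℕ) : ℝ) := by
      have : 2 ^ (i + 1 - d) + 4 ≤ 2 * 2 ^ (i + 1 - d) := by omega
      exact_mod_cast this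
    rw [h3]
    rw [div_le_iff₀ (by positivity)]
    refine le_trans h4 (le_of_eq ?_)
    push_cast
    rw [one_div, inv_pow]
    field_simp
  rw [e1] at hb1
  rw [e2, e3] at hb2
  have h5 : (((2 ^ (i + 1 - d) + 4 : ℕ) : ℝ) / ((2 ^ (i - 2) : ℕ) : ℝ)) ^ a ≤
      (((1 : ℝ) / 2) ^ (d - 4)) ^ a := Real.rpow_le_rpow (by positivity) e4 ha.le
  have h6 : Pr B₁ ≤ ε := by
    refine le_trans hb1 (le_trans ?_ h1)
    exact mul_le_mul_of_nonneg_left h5 (by positivity)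
  linarith

/-! ## The statement -/

theorem SE3 (hCG1 : CG1_stmt) (hCG2 : CG2_stmt) (hDB : DB_stmt) (hDL : DL_stmt) (hNT : NT_stmt)
    (hSE2 : SE2_stmt) (hBmono : Bmono_stmt) (hBsub : Bsub_stmt) (hBunion : Bunion_stmt)
    (hBcs : Bcs_stmt) (hBindep : Bindep_stmt) (hBmarg : Bmarg_stmt) (hBsymm : Bsymm_stmt) :
    SE3_stmt := by
  classical
  intro ε hε
  obtain ⟨CB, hCB, a, ha, hDB⟩ := hDB
  obtain ⟨d, e, hd, hde, hc1, hc2⟩ := SE3_consts CB a (ε / 4) ha (by positivity)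
  obtain ⟨h, heh, C₂, hC₂, i₁, hhi₁, hSE2⟩ := hSE2 d e (by omega) (by omega)
  refine ⟨((8 * 2 ^ h : ℕ) : ℝ) ^ 4 * ((8 * 2 ^ h : ℕ) : ℝ) ^ 4 * C₂, by positivity, i₁, ?_⟩
  intro j s ρ x D X Y i hj hρ hx hi hD hX hY hFY
  have hhi : h ≤ i := le_trans hhi₁ hi
  obtain ⟨p1, p2, p3, p4, p5, p6, p7, p8, p9, p10, p11⟩ := SE3_pow hd hde heh hhi
  obtain ⟨τ, hτ, hnet⟩ := SE3_net hCG1 hCG2 x (2 ^ i) (2 ^ (i - h)) (8 * 2 ^ h) (by omega) p1 p9
  set B₁ := Ev fun c => Bad s c x (2 ^ i) (2 ^ (i + 1 - d) + 4) (2 ^ (i - 2)) with hB₁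
  set B₂ := Ev fun c => Bad s c x (2 ^ i) (2 ^ (i + 1 - e)) (2 ^ (i + 1 - d)) with hB₂
  have hBd : Pr (B₁ ∪ B₂) ≤ ε / 4 + ε / 4 :=
    SE3_bad hBsub hBmarg hDL CB a (ε / 4) ha hCB hDB hd hde heh hhi hc1 hc2 s x hx
  -- locality of the extra events
  have hXL : Loc X Set.univ := by
    cases s with
    | true =>
      simp only [Extra, if_true] at hX
      exact hX.mono (Set.subset_univ _)
    | false =>
      simp only [Extra, Bool.false_eq_true, if_false] at hX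
      exact hX.mono (Set.subset_univ _)
  -- the index set
  let P : (Fin 4 → Fin (8 * 2 ^ h)) → Prop := fun ι => Ord j x (2 ^ i) (SE3_y x τ ι) ∧
    ∀ l < j, ∀ l' < j, l ≠ l' → 2 ^ (i - d) ≤ sd (SE3_y x τ ι l) (SE3_y x τ ι l')
  let N : ℕ := Fintype.card {ι : Fin 4 → Fin (8 * 2 ^ h) // P ι}
  have hN : (N : ℝ) ≤ ((8 * 2 ^ h : ℕ) : ℝ) ^ 4 := by
    have h1 : N ≤ Fintype.card (Fin 4 → Fin (8 * 2 ^ h)) := Fintype.card_subtype_le _
    have h2 : Fintype.card (Fin 4 → Fin (8 * 2 ^ h)) = (8 * 2 ^ h) ^ 4 := by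
      rw [Fintype.card_fun, Fintype.card_fin, Fintype.card_fin]
    rw [h2] at h1
    exact_mod_cast h1
  let E : Fin N ≃ {ι : Fin 4 → Fin (8 * 2 ^ h) // P ι} := (Fintype.equivFin _).symm
  let M : Fin N → Set (V → Bool) := fun t => X ∩
    Ev fun c => Mrk c j s x (2 ^ i) D (SE3_y x τ (E t).1) (2 ^ (i - h)) (2 ^ (i - e))
  have hyb : ∀ (ι : Fin 4 → Fin (8 * 2 ^ h)), ∀ l < j, SE3_y x τ ι l ∈ bd x (2 ^ i) := by
    intro ι l hl
    have hl4 : l < 4 := by omega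
    simp only [SE3_y, hl4, dif_pos]
    exact hτ _
  have hcover : (X ∩ Ev fun c => Fam c j s x (2 ^ i) D) ⊆ (B₁ ∪ B₂) ∪ ⋃ t, M t := by
    intro b hb
    by_cases hbad : b ∈ B₁ ∪ B₂
    · exact Or.inl hbad
    right
    have hb1 : ¬ Bad s (col b) x (2 ^ i) (2 ^ (i + 1 - d) + 4) (2 ^ (i - 2)) :=
      fun h' => hbad (Or.inl h')
    have hb2 : ¬ Bad s (col b) x (2 ^ i) (2 ^ (i + 1 - e)) (2 ^ (i + 1 - d)) :=
      fun h' => hbad (Or.inr h')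
    have hok : D.ok s x (if s = true then (if s = true then 3 * 2 ^ (i - 2) else 5 * 2 ^ (i - 2)) - 1
        else (if s = true then 3 * 2 ^ (i - 2) else 5 * 2 ^ (i - 2)) + 1) := by
      refine SE3_ok_mono hD ?_
      cases s with
      | true =>
        simp only [if_true]
        omega
      | false =>
        simp only [Bool.false_eq_true, if_false]
        omega
    have hgap : gap s (2 ^ i) (if s = true then 3 * 2 ^ (i - 2) else 5 * 2 ^ (i - 2))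
        (2 ^ (i - 2)) := by
      cases s with
      | true =>
        simp only [gap, if_true]
        omega
      | false =>
        simp only [gap, Bool.false_eq_true, if_false]
        omega
    have hn' : 1 ≤ (if s = true then 3 * 2 ^ (i - 2) else 5 * 2 ^ (i - 2)) := by
      split_ifs <;> omega
    obtain ⟨y, hyT, hyO, hyS, hyM⟩ := hNT (col b) j s x (2 ^ i)
      (if s = true then 3 * 2 ^ (i - 2) else 5 * 2 ^ (i - 2)) (2 ^ (i + 1 - e)) (2 ^ (i + 1 - d))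
      (2 ^ (i - 2)) (2 ^ (i - h)) D (Set.range τ) hj hx hn' hgap p1 p2 p3 p4 (by omega) p5 hok
      (by rintro _ ⟨t, rfl⟩; exact hτ t)
      (by
        intro u hu
        obtain ⟨t, ht⟩ := hnet u hu
        exact ⟨τ t, ⟨t, rfl⟩, ht⟩) hb1 hb2 hb.2
    have hr2 : 2 ^ (i + 1 - d) / 2 = 2 ^ (i - d) := by omega
    have hr1 : 2 ^ (i + 1 - e) / 2 = 2 ^ (i - e) := by omega
    rw [hr2] at hyS
    rw [hr1] at hyM
    have hι : ∀ l : Fin 4, ∃ t : Fin (8 * 2 ^ h), (l : ℕ) < j → τ t = y l := by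
      intro l
      by_cases hl : (l : ℕ) < j
      · obtain ⟨t, ht⟩ := hyT l hl
        exact ⟨t, fun _ => ht⟩
      · exact ⟨⟨0, by positivity⟩, fun h' => absurd h' hl⟩
    choose ι hι using hι
    have hyy : ∀ l < j, y l = SE3_y x τ ι l := by
      intro l hl
      have hl4 : l < 4 := by omega
      simp only [SE3_y, hl4, dif_pos]
      exact (hι ⟨l, hl4⟩ hl).symm
    have hP : P ι := by
      refine ⟨SE3_Ord_congr hj hyy hyO, ?_⟩
      intro l hl l' hl' hll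
      rw [← hyy l hl, ← hyy l' hl']
      exact hyS l hl l' hl' hll
    refine Set.mem_iUnion.2 ⟨E.symm ⟨ι, hP⟩, hb.1, ?_⟩
    show Mrk (col b) j s x (2 ^ i) D (SE3_y x τ (E (E.symm ⟨ι, hP⟩)).1) (2 ^ (i - h)) (2 ^ (i - e))
    rw [Equiv.apply_symm_apply]
    exact SE3_Mrk_congr hj hyy hyM
  have hQ0 : ∀ G G' : Set (V → Bool), 0 ≤ Q ρ G G' := fun G G' => measureReal_nonneg
  set qS := Q ρ (X ∩ Ev fun c => Std c j s x (nx s (2 ^ i)) D)
          (X ∩ Ev fun c => Std c j s x (nx s (2 ^ i)) D) with hqS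
  have hqS0 : 0 ≤ qS := hQ0 _ _
  have hAA : ∃ A A' : Set V, BDis A A' ∧ Loc Y A ∧ Loc (B₁ ∪ B₂) A' := by
    refine ⟨if s = true then box x (2 ^ (i - 1)) else {v | 2 ^ (i + 1) ≤ sd x v},
      {v | 2 ^ i ≤ sd x v + 2 ^ (i - 2) ∧ sd x v ≤ 2 ^ i + 2 ^ (i - 2)}, ?_, ?_, ?_⟩
    · refine BDis.of_sd ?_
      intro v hv w hw
      have t1 := sd_triangle x v w
      have t2 := sd_triangle x w v
      rw [sd_comm w v] at t2
      cases s with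
      | true =>
        simp only [if_true, box, Set.mem_setOf_eq] at hv hw
        omega
      | false =>
        simp only [Bool.false_eq_true, if_false, Set.mem_setOf_eq] at hv hw
        omega
    · cases s with
      | true => simpa using hY
      | false => simpa using hY
    · have hL1 := hDL s x (2 ^ i) (2 ^ (i + 1 - d) + 4) (2 ^ (i - 2)) (by omega)
      have hL2 := hDL s x (2 ^ i) (2 ^ (i + 1 - e)) (2 ^ (i + 1 - d)) (by omega)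
      refine Loc.mono (Loc.union hL1 hL2) ?_
      intro v hv
      simp only [Set.mem_union, Set.mem_setOf_eq] at hv ⊢
      omega
  obtain ⟨A, A', hdis, hLY, hLB⟩ := hAA
  have hfin := SE3_abstract hBmono hBsub hBunion hBcs hBindep hBmarg hBsymm ρ hρ
    (X ∩ Ev fun c => Fam c j s x (2 ^ i) D) Y (B₁ ∪ B₂) N M A A' (C₂ * qS) (ε / 2) hFY
    hcover (by positivity)
    (fun t => hSE2 j s ρ x D X i (SE3_y x τ (E t).1) hj hρ hx hi hD hX (hyb _) (E t).2.1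
      (E t).2.2)
    (fun t => (hXL.inter (SE3_Mrk_loc hD j (2 ^ i) (2 ^ (i - h)) (2 ^ (i - e)) _
      (by omega))).mono (Set.subset_univ _))
    hdis hLY hLB (by linarith)
  have hNN : (N : ℝ) * N * (C₂ * qS) ≤
      ((8 * 2 ^ h : ℕ) : ℝ) ^ 4 * ((8 * 2 ^ h : ℕ) : ℝ) ^ 4 * (C₂ * qS) := by
    refine mul_le_mul_of_nonneg_right ?_ (by positivity)
    exact mul_le_mul hN hN (by positivity) (by positivity)
  calc _ ≤ (N : ℝ) * N * (C₂ * qS) + 2 * (ε / 2) * Q ρ Y Y := hfin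
    _ ≤ _ := by
      have h3 : 2 * (ε / 2) * Q ρ Y Y = ε * Q ρ Y Y := by ring
      rw [h3]
      linarith

end TP
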